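import Pool.Agent.Helper362.IdealJ
import Pool.Agent.Results.MP_c384ac_an.EachDomainEachConstant

/-!
# Maximal Banach ideals without weak local reflexivity

For real and complex scalars there are a maximal Banach ideal, a Euclidean space `E`, a Banach space
`Y` and an operator `T` from `E` to `Y''` such that no operator `S` from `E` to `Y` with
`𝐀(S) ≤ (1 + ε) 𝐀(T)` approximates `T` up to `ε` at certain finitely many points of `E × Y'`.
-/

set_option autoImplicit false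
open Module NormedSpace Filter
open scoped Topology ENNReal

namespace Pool.Agent.Results.MP_ffba67_an.WeakReflexivityFails

open Pool.Agent.Helper362.Ideals Pool.Agent.Results.MP_c384ac_an.EachDomainEachConstant

section Assemble

variable {𝕜 : Type} [RCLike 𝕜]
variable {E0 Y0 : Type} [NormedAddCommGroup E0] [NormedSpace 𝕜 E0]
  [NormedAddCommGroup Y0] [NormedSpace 𝕜 Y0] (T0 : E0 →L[𝕜] Y0)

/-- A criterion for the failure of right-accessibility. -/
theorem not_accessibleOn [FiniteDimensional 𝕜 E0] [CompleteSpace E0] [CompleteSpace Y0]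
    (hT0 : ‖T0‖ ≤ 1) (w : Y0 →L[𝕜] E0) (G1 : ℝ) (hG : 0 < G1) (hw : ‖w‖ ≤ G1)
    (h1 : ∀ (a : E0 →L[𝕜] E0) (V : Y0 →L[𝕜] Y0), ‖a‖ ≤ 1 → ‖V‖ ≤ 1 →
      FiniteDimensional 𝕜 (LinearMap.range (V : Y0 →ₗ[𝕜] Y0)) →
      ‖tr (w ∘L V ∘L T0 ∘L a)‖ ≤ G1)
    (h2 : G1 < ‖tr (w ∘L T0)‖) : ¬ AccessibleOn (gen T0 hT0).toIdealData E0 1 := by
  intro hRA
  set G0 := ‖tr (w ∘L T0)‖ with hG0
  have hε : 0 < (G0 - G1) / (2 * G1) := by
    have : 0 < G0 - G1 := by linarith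
    positivity
  obtain ⟨N, hN, hNc, S, hTS, hS⟩ := hRA Y0 T0 _ hε
  have hS' : nm T0 S ≤ (1 + (G0 - G1) / (2 * G1)) * nm T0 T0 := hS
  set w' : N →L[𝕜] E0 := ((G1⁻¹ : ℝ) : 𝕜) • (w ∘L N.subtypeL) with hw'
  have htest : IsTest T0 w' := by
    refine ⟨?_, fun a b ha hb => ?_⟩
    · rw [hw', norm_smul, RCLike.norm_ofReal, abs_of_pos (by positivity)]
      have e1 : ‖w ∘L N.subtypeL‖ ≤ G1 := by
        refine (ContinuousLinearMap.opNorm_comp_le _ _).trans ?_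
        have e2 : ‖N.subtypeL‖ ≤ 1 := Submodule.norm_subtypeL_le N
        have e3 := norm_nonneg w
        nlinarith
      rw [inv_mul_le_iff₀ hG, mul_one]
      exact e1
    · have e1 : w' ∘L b ∘L T0 ∘L a = ((G1⁻¹ : ℝ) : 𝕜) • (w ∘L (N.subtypeL ∘L b) ∘L T0 ∘L a) := by
        rw [hw', ContinuousLinearMap.smul_comp]
        rfl
      rw [e1, tr_smul, norm_mul, RCLike.norm_ofReal, abs_of_pos (by positivity),
        inv_mul_le_iff₀ hG, mul_one]
      refine h1 a (N.subtypeL ∘L b) ha ?_ ?_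
      · refine (ContinuousLinearMap.opNorm_comp_le _ _).trans ?_
        have e2 : ‖N.subtypeL‖ ≤ 1 := Submodule.norm_subtypeL_le N
        have e3 := norm_nonneg b
        nlinarith
      · have e2 : LinearMap.range ((N.subtypeL ∘L b : Y0 →L[𝕜] Y0) : Y0 →ₗ[𝕜] Y0) ≤ N := by
          rintro _ ⟨x, rfl⟩
          exact (b x).2
        exact Submodule.finiteDimensional_of_le e2
  have hb := BD_nm T0 (BD_finiteRank T0 S inferInstance) _ ⟨E0, N, _, _, inferInstance, _, _, hN,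
    ContinuousLinearMap.id 𝕜 E0, ContinuousLinearMap.id 𝕜 N, w', ContinuousLinearMap.norm_id_le,
    ContinuousLinearMap.norm_id_le, htest, rfl⟩
  have e3 : w' ∘L (ContinuousLinearMap.id 𝕜 N) ∘L S ∘L (ContinuousLinearMap.id 𝕜 E0) =
      ((G1⁻¹ : ℝ) : 𝕜) • (w ∘L T0) := by
    rw [ContinuousLinearMap.id_comp, ContinuousLinearMap.comp_id, hw',
      ContinuousLinearMap.smul_comp]
    conv_rhs => rw [hTS]
    rfl
  rw [e3, tr_smul, norm_mul, RCLike.norm_ofReal, abs_of_pos (by positivity), ← hG0] at hb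
  have e4 := nm_T0_le T0
  have e5 : G1⁻¹ * G0 ≤ 1 + (G0 - G1) / (2 * G1) := by
    refine hb.trans (hS'.trans ?_)
    have : 0 ≤ 1 + (G0 - G1) / (2 * G1) := by positivity
    nlinarith
  have e6 : G1 * (G1⁻¹ * G0) ≤ G1 * (1 + (G0 - G1) / (2 * G1)) :=
    mul_le_mul_of_nonneg_left e5 hG.le
  have e7 : G1 * (G1⁻¹ * G0) = G0 := by field_simp
  have e8 : G1 * (1 + (G0 - G1) / (2 * G1)) = (G0 + G1) / 2 := by field_simp; ring
  rw [e7, e8] at e6
  linarith

end Assemble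

section Main

variable {𝕜 : Type} [RCLike 𝕜]
variable {Z : Type} [NormedAddCommGroup Z] [NormedSpace 𝕜 Z] {n : ℕ} (hn : 0 < n)

/-- The main construction. -/
theorem exists_not_acc [CompleteSpace Z] (hn3 : 3 ≤ n) (ι : EuclideanSpace 𝕜 (Fin n) →L[𝕜] Z)
    (u : Z →L[𝕜] EuclideanSpace 𝕜 (Fin n)) (hι : ‖ι‖ ≤ 1) (htr : tr (u ∘L ι) = 1)
    (hu : Real.sqrt n * ‖u‖ ≤ 1 / 8)
    (hV0 : ∀ V : Z →L[𝕜] Z, ‖V‖ ≤ 1 → FiniteDimensional 𝕜 (LinearMap.range (V : Z →ₗ[𝕜] Z)) →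
      ‖tr (u ∘L V ∘L ι)‖ ≤ 1 / 4) :
    ¬ AccessibleOn (gen (TT hn ι) (norm_TT hn ι hι)).toIdealData (EuclideanSpace 𝕜 (Fin n)) 1 := by
  set T0 := TT hn ι with hT0
  obtain ⟨C, hC0, hC⟩ : ∃ C : ℝ, 0 ≤ C ∧
      ∀ A : EuclideanSpace 𝕜 (Fin n) →L[𝕜] EuclideanSpace 𝕜 (Fin n), ‖tr A‖ ≤ C * ‖A‖ := by
    refine ⟨‖LinearMap.toContinuousLinearMap (trL (𝕜 := 𝕜) (EuclideanSpace 𝕜 (Fin n)))‖,
      ContinuousLinearMap.opNorm_nonneg _, fun A => ?_⟩
    exact (LinearMap.toContinuousLinearMap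
      (trL (𝕜 := 𝕜) (EuclideanSpace 𝕜 (Fin n)))).le_opNorm A
  set C1 := C * ‖P1 u‖ with hC1
  have hC1' : 0 ≤ C1 := by positivity
  have crude : ∀ (a : EuclideanSpace 𝕜 (Fin n) →L[𝕜] EuclideanSpace 𝕜 (Fin n))
      (V : Z × (Fin n → 𝕜) →L[𝕜] Z × (Fin n → 𝕜)), ‖V‖ ≤ 1 →
      ‖tr (P1 u ∘L V ∘L T0 ∘L a)‖ ≤ C1 * ‖a‖ := by
    intro a V hV
    refine (hC _).trans ?_
    rw [hC1, mul_assoc]
    refine mul_le_mul_of_nonneg_left ?_ hC0
    refine (ContinuousLinearMap.opNorm_comp_le _ _).trans ?_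
    refine mul_le_mul_of_nonneg_left ?_ (norm_nonneg _)
    refine (ContinuousLinearMap.opNorm_comp_le _ _).trans ?_
    have e1 : ‖T0 ∘L a‖ ≤ ‖a‖ := by
      refine (ContinuousLinearMap.opNorm_comp_le _ _).trans ?_
      have := norm_TT hn ι hι
      have e2 := norm_nonneg a
      nlinarith
    have e3 := norm_nonneg (T0 ∘L a)
    nlinarith [norm_nonneg V]
  set δ : ℝ := 1 / (4 * (C1 + 1)) with hδ
  have hδ0 : 0 < δ := by positivity
  have hδ1 : C1 * δ ≤ 1 / 4 := by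
    rw [hδ, ← mul_div_assoc, mul_one, div_le_iff₀ (by positivity)]
    linarith
  set S : Set (EuclideanSpace 𝕜 (Fin n) →L[𝕜] EuclideanSpace 𝕜 (Fin n)) :=
    {a | ‖a‖ ≤ 1 ∧ ∀ c : 𝕜, ‖c‖ = 1 → δ ≤ ‖a - c • ContinuousLinearMap.id 𝕜 _‖} with hS
  have hcomp : IsCompact S := by
    have hp : ProperSpace (EuclideanSpace 𝕜 (Fin n) →L[𝕜] EuclideanSpace 𝕜 (Fin n)) :=
      FiniteDimensional.proper 𝕜 _
    refine IsCompact.of_isClosed_subset (isCompact_closedBall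
      (0 : EuclideanSpace 𝕜 (Fin n) →L[𝕜] EuclideanSpace 𝕜 (Fin n)) 1) ?_ ?_
    · have e1 : S = {a | ‖a‖ ≤ 1} ∩ ⋂ c : 𝕜, ⋂ _ : ‖c‖ = 1,
          {a | δ ≤ ‖a - c • ContinuousLinearMap.id 𝕜 _‖} := by
        ext a
        simp only [hS, Set.mem_ofPred_eq, Set.mem_inter_iff, Set.mem_iInter]
      rw [e1]
      refine IsClosed.inter (isClosed_le continuous_norm continuous_const) ?_
      refine isClosed_iInter (fun c => isClosed_iInter (fun _ => ?_))
      exact isClosed_le continuous_const (continuous_id.sub continuous_const).norm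
    · intro a ha
      rw [Metric.mem_closedBall, dist_zero_right]
      exact ha.1
  have hSne : ∀ a ∈ S, hf hn ι a < n := by
    intro a ha
    refine hf_lt hn hn3 ι hι a ha.1 (fun c hc hac => ?_)
    have h1 := ha.2 c hc
    rw [hac, sub_self, norm_zero] at h1
    linarith
  obtain ⟨η, hη0, hη⟩ : ∃ η : ℝ, 0 < η ∧ ∀ a ∈ S, hf hn ι a ≤ n - η := by
    by_cases hSe : S.Nonempty
    · obtain ⟨a0, ha0, hmax⟩ := hcomp.exists_isMaxOn hSe (continuous_hf hn ι).continuousOn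
      refine ⟨n - hf hn ι a0, by linarith [hSne a0 ha0], fun a ha => ?_⟩
      have : hf hn ι a ≤ hf hn ι a0 := hmax ha
      linarith
    · exact ⟨1, one_pos, fun a ha => absurd ⟨a, ha⟩ hSe⟩
  set R : ℝ := C1 / η with hR
  have hR0 : 0 ≤ R := by positivity
  have hRη : R * η = C1 := div_mul_cancel₀ _ hη0.ne'
  have hRn : 0 ≤ R * n := by positivity
  have hu8 : ‖u‖ ≤ 1 / 8 := by
    have h1 : (1 : ℝ) ≤ Real.sqrt n := by
      rw [show (1 : ℝ) = Real.sqrt 1 by simp]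
      exact Real.sqrt_le_sqrt (by exact_mod_cast (by omega : 1 ≤ n))
    have := norm_nonneg u
    nlinarith
  refine not_accessibleOn T0 (norm_TT hn ι hι) (WW hn u R) (R * n + 3 / 4) (by positivity)
    ?_ ?_ ?_
  · refine (norm_WW hn u R hR0).trans ?_
    linarith
  · intro a V ha hV hVf
    have e1 := tr_WW hn u R (V ∘L T0 ∘L a)
    have e2 : ‖(R : 𝕜) * ∑ j, ((V ∘L T0 ∘L a) (mk 𝕜 hn j)).2 j‖ ≤ R * hf hn ι a := by
      rw [norm_mul, RCLike.norm_ofReal, abs_of_nonneg hR0]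
      refine mul_le_mul_of_nonneg_left ?_ hR0
      unfold hf
      refine norm_sum_le_of_le _ (fun j _ => ?_)
      show ‖(V (T0 (a (mk 𝕜 hn j)))).2 j‖ ≤ _
      refine (norm_le_pi_norm (V (T0 (a (mk 𝕜 hn j)))).2 j).trans ?_
      refine (norm_snd_le _).trans ((V.le_opNorm _).trans ?_)
      have := norm_nonneg (T0 (a (mk 𝕜 hn j)))
      nlinarith
    rw [e1]
    refine (norm_add_le _ _).trans ?_
    by_cases haS : a ∈ S
    · have e3 := crude a V hV
      have e4 : C1 * ‖a‖ ≤ C1 := by nlinarith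
      have e5 := hη a haS
      have e6 : R * hf hn ι a ≤ R * (n - η) := mul_le_mul_of_nonneg_left e5 hR0
      have e7 : R * (n - η) = R * n - C1 := by rw [mul_sub, hRη]
      linarith
    · obtain ⟨c, hc1, hc2⟩ : ∃ c : 𝕜, ‖c‖ = 1 ∧ ‖a - c • ContinuousLinearMap.id 𝕜 _‖ < δ := by
        by_contra hcon
        apply haS
        refine ⟨ha, fun c hc => ?_⟩
        by_contra hlt
        exact hcon ⟨c, hc, not_le.mp hlt⟩
      have e3 : P1 u ∘L V ∘L T0 ∘L a = c • (P1 u ∘L V ∘L T0) +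
          P1 u ∘L V ∘L T0 ∘L (a - c • ContinuousLinearMap.id 𝕜 _) := by
        ext1 x
        show P1 u (V (T0 (a x))) = c • P1 u (V (T0 x)) + P1 u (V (T0 (a x - c • x)))
        rw [map_sub T0, map_sub V, map_sub (P1 u), map_smul T0, map_smul V, map_smul (P1 u)]
        abel
      have e4 : ‖tr (P1 u ∘L V ∘L T0 ∘L a)‖ ≤ 3 / 4 := by
        rw [e3, tr_add, tr_smul]
        refine (norm_add_le _ _).trans ?_
        rw [norm_mul, hc1, one_mul]
        have e5 := near_id hn ι u hu hV0 V hV hVf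
        have e6 := crude (a - c • ContinuousLinearMap.id 𝕜 _) V hV
        have e7 : C1 * ‖a - c • ContinuousLinearMap.id 𝕜 _‖ ≤ C1 * δ :=
          mul_le_mul_of_nonneg_left hc2.le hC1'
        linarith
      have e8 := hf_le hn ι hι a ha
      have e9 : R * hf hn ι a ≤ R * n := mul_le_mul_of_nonneg_left e8 hR0
      linarith
  · rw [tr_WW_TT, htr, ← RCLike.ofReal_one, ← RCLike.ofReal_add, RCLike.norm_ofReal,
      abs_of_pos (by linarith)]
    linarith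

end Main

open Pool.Agent.Helper362.Hap

variable (𝕜 : Type) [RCLike 𝕜]

/-- A maximal Banach ideal which is not right-accessible. -/
theorem exists_maximal_not_acc : ∃ (I : BanachIdeal.{0} 𝕜) (n : ℕ), IsMaximal I.toIdealData ∧
    ¬ AccessibleOn I.toIdealData (EuclideanSpace 𝕜 (Fin n)) 1 := by
  obtain ⟨k, hk⟩ : ∃ k : ℕ, 7 ≤ k := ⟨7, le_rfl⟩
  have hs := s_large k (by omega)
  have hs0 : 0 < dat.s k := dat.s_pos k
  have hk1 : 1 ≤ 4 ^ k := Nat.one_le_pow _ _ (by norm_num)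
  have hs3 : 3 ≤ dat.s k := by
    refine le_trans ?_ hs
    omega
  have hsR : (0 : ℝ) < dat.s k := by exact_mod_cast hs0
  refine ⟨gen (TT hs0 (io1 𝕜 dat k)) (norm_TT hs0 _ (norm_io1 𝕜 dat k)), dat.s k,
    gen_maximal _ _, ?_⟩
  refine exists_not_acc hs0 hs3 (io1 𝕜 dat k) (co1 𝕜 dat k) (norm_io1 𝕜 dat k) (tr_one 𝕜 dat k)
    ?_ ?_
  · have h1 := norm_co1 𝕜 dat k
    have h2 : Real.sqrt (dat.s k) * (6 * 2 ^ k / dat.s k) ≤ 1 / 8 := by
      have h3 : Real.sqrt (dat.s k) * Real.sqrt (dat.s k) = dat.s k :=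
        Real.mul_self_sqrt hsR.le
      have h4 : (48 * 2 ^ k : ℝ) ≤ Real.sqrt (dat.s k) := by
        apply Real.le_sqrt_of_sq_le
        have h5 : ((48 : ℝ) * 2 ^ k) ^ 2 = ((2304 * 4 ^ k : ℕ) : ℝ) := by
          rw [mul_pow, ← pow_mul, mul_comm k 2, pow_mul]
          push_cast
          norm_num
        rw [h5]
        exact_mod_cast hs
      have h6 : 0 < Real.sqrt (dat.s k) := Real.sqrt_pos.mpr hsR
      rw [← mul_div_assoc, div_le_iff₀ hsR]
      nlinarith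
    refine le_trans ?_ h2
    exact mul_le_mul_of_nonneg_left h1 (Real.sqrt_nonneg _)
  · intro V hV hf
    rw [tr_beta]
    refine (beta_bound 𝕜 dat k V hV hf).trans ?_
    have h1 : (1 / 2 : ℝ) ^ k ≤ (1 / 2) ^ 7 :=
      pow_le_pow_of_le_one (by norm_num) (by norm_num) hk
    have h2 : (1 / 2 : ℝ) ^ 7 = 1 / 128 := by norm_num
    rw [h2] at h1
    linarith

/-- **Weak local reflexivity fails.** For real and for complex scalars there is a maximal Banach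
ideal `(𝔄, 𝐀)` which does not satisfy the `𝔄`-LRP (Q1), and in fact not even its weakest form:
there are a Euclidean space `E` of dimension `n`, a Banach space `Y`, an operator `T` from `E` to
`Y''`, finitely many pairs `(x, y')` in `E × Y'` and `ε > 0` such that every operator `S` from `E`
to `Y` with `𝐀(S) ≤ (1 + ε) 𝐀(T)` has `|⟨S x, y'⟩ - ⟨y', T x⟩| > ε` for one of the pairs. -/
theorem result (𝕜 : Type) [RCLike 𝕜] : ∃ I : BanachIdeal.{0} 𝕜,
    I.nrm (ContinuousLinearMap.id 𝕜 𝕜) = 1 ∧ IsMaximal I.toIdealData ∧ ¬ LRP I.toIdealData ∧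
    ∃ (n : ℕ) (Y : Type) (_ : NormedAddCommGroup Y) (_ : NormedSpace 𝕜 Y) (_ : CompleteSpace Y)
      (T : EuclideanSpace 𝕜 (Fin n) →L[𝕜] Bidual 𝕜 Y)
      (P : Set (EuclideanSpace 𝕜 (Fin n) × StrongDual 𝕜 Y)) (ε : ℝ), P.Finite ∧ 0 < ε ∧
      ∀ S : EuclideanSpace 𝕜 (Fin n) →L[𝕜] Y, I.nrm S ≤ (1 + ε) * I.nrm T →
        ∃ q ∈ P, ε < ‖q.2 (S q.1) - value (T q.1) q.2‖ := by
  obtain ⟨I, n, h1, h2⟩ := exists_maximal_not_acc 𝕜
  have h3 : I.nrm (ContinuousLinearMap.id 𝕜 𝕜) = 1 := by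
    have h3 := I.nrm_rankOne (ContinuousLinearMap.id 𝕜 𝕜) (1 : 𝕜)
    have h4 : (ContinuousLinearMap.id 𝕜 𝕜 : StrongDual 𝕜 𝕜).smulRight (1 : 𝕜) =
        ContinuousLinearMap.id 𝕜 𝕜 := by
      ext
      simp
    rw [h4, ContinuousLinearMap.norm_id, norm_one, mul_one] at h3
    exact h3
  have h5 : ¬ LRP I.toIdealData := by
    intro h
    apply h2
    intro Y _ _ _ T ε hε
    exact I.rightAccessible_of_LRP h (EuclideanSpace 𝕜 (Fin n)) Y inferInstance T ε hε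
  have h6 : ¬ WeakLRPOn I.toIdealData (EuclideanSpace 𝕜 (Fin n)) 1 := fun h =>
    h2 (accessible_of_weak I zero_le_one h)
  refine ⟨I, h3, h1, h5, n, ?_⟩
  by_contra hcon
  apply h6
  intro Y _ _ _ T P hP ε hε
  by_contra hno
  apply hcon
  refine ⟨Y, inferInstance, inferInstance, inferInstance, T, P, ε, hP, hε, fun S hS => ?_⟩
  by_contra hq
  apply hno
  refine ⟨S, hS, fun q hq' => ?_⟩
  by_contra hlt
  exact hq ⟨q, hq', not_le.1 hlt⟩

end Pool.Agent.Results.MP_ffba67_an.WeakReflexivityFails
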